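import Pool.Agent.N229.PG.Stm

/-! Project PG, leaf S1: lower bounds of `V`. -/

namespace PG

open Complex Filter Topology Metric Set

theorem s1_norm_cst (α : ℝ) : ‖cst α‖ = 1 := by
  have h : ‖cst α‖ ^ 2 = 1 := by
    rw [← Complex.normSq_eq_norm_sq, Complex.normSq_apply, cst]
    have := Real.sin_sq_add_cos_sq (Real.pi * α / 2)
    nlinarith
  have h0 : 0 ≤ ‖cst α‖ := norm_nonneg _
  nlinarith

theorem s1_mul_conj {a : ℂ} (ha : ‖a‖ = 1) : a * (starRingEnd ℂ) a = 1 := by
  rw [Complex.mul_conj, Complex.normSq_eq_norm_sq, ha]; simp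

theorem s1_norm_s {a : ℂ} (ha : ‖a‖ = 1) (z : ℂ) : ‖1 - z * (starRingEnd ℂ) a‖ = ‖z - a‖ := by
  have h : 1 - z * (starRingEnd ℂ) a = -((z - a) * (starRingEnd ℂ) a) := by
    have := s1_mul_conj ha
    linear_combination -this
  rw [h, norm_neg, norm_mul, Complex.norm_conj, ha, mul_one]

theorem s1_re_s {a : ℂ} (ha : ‖a‖ = 1) {z : ℂ} (hz : ‖z‖ ≤ 1) :
    0 ≤ (1 - z * (starRingEnd ℂ) a).re := by
  have h1 : (z * (starRingEnd ℂ) a).re ≤ ‖z * (starRingEnd ℂ) a‖ := Complex.re_le_norm _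
  rw [norm_mul, Complex.norm_conj, ha, mul_one] at h1
  rw [Complex.sub_re, Complex.one_re]
  linarith

theorem s1_re_lt {z : ℂ} (hz : ‖z‖ ≤ 1) (h1 : z ≠ 1) : z.re < 1 := by
  have h2 : z.re ≤ ‖z‖ := Complex.re_le_norm _
  rcases lt_or_eq_of_le (h2.trans hz) with h | h
  · exact h
  exfalso
  apply h1
  have h3 : ‖z‖ ^ 2 = z.re * z.re + z.im * z.im := by
    rw [← Complex.normSq_eq_norm_sq, Complex.normSq_apply]
  have h4 : ‖z‖ ^ 2 ≤ 1 := by
    have := norm_nonneg z
    nlinarith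
  have h5 : z.im = 0 := by
    have : z.im * z.im ≤ 0 := by rw [h] at h3; linarith
    nlinarith [mul_self_nonneg z.im]
  exact Complex.ext (by simpa using h) (by simpa using h5)

theorem s1_im {a : ℂ} (ha : ‖a‖ = 1) (hr : 0 ≤ a.re) (hi : 0 ≤ a.im) : ‖1 - a‖ / 2 ≤ a.im := by
  have h1 : ‖a‖ ^ 2 = a.re * a.re + a.im * a.im := by
    rw [← Complex.normSq_eq_norm_sq, Complex.normSq_apply]
  rw [ha] at h1
  have h2 : ‖1 - a‖ ^ 2 = (1 - a.re) * (1 - a.re) + a.im * a.im := by
    rw [← Complex.normSq_eq_norm_sq, Complex.normSq_apply]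
    simp
  have h3 : a.re ≤ 1 := by
    have := Complex.re_le_norm a
    linarith
  have h0 : 0 ≤ ‖1 - a‖ := norm_nonneg _
  by_contra hc
  push Not at hc
  nlinarith

theorem leaf_S1 (hK3 : StmK3) : StmS1 := by
  intro α h0 h1 ι a ρ C0 hC
  obtain ⟨C, D, hC1, hD1, hK⟩ := hK3 α h0 h1
  have hC0 := hC.one_le
  have hp0 : 0 < Real.pi * α / 2 := by have := Real.pi_pos; positivity
  have hp1 : Real.pi * α / 2 < Real.pi / 2 := by
    have := Real.pi_pos; nlinarith
  have hsin : 0 < Real.sin (Real.pi * α / 2) :=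
    Real.sin_pos_of_pos_of_lt_pi hp0 (by linarith [Real.pi_pos])
  have hcos : 0 < Real.cos (Real.pi * α / 2) :=
    Real.cos_pos_of_mem_Ioo ⟨by linarith [Real.pi_pos], hp1⟩
  obtain ⟨m, hm⟩ : ∃ m, m = min (Real.sin (Real.pi * α / 2)) (Real.cos (Real.pi * α / 2)) :=
    ⟨_, rfl⟩
  have hm0 : 0 < m := hm ▸ lt_min hsin hcos
  have hms : m ≤ Real.sin (Real.pi * α / 2) := hm ▸ min_le_left _ _
  have hmc : m ≤ Real.cos (Real.pi * α / 2) := hm ▸ min_le_right _ _
  obtain ⟨C3, hC3⟩ : ∃ C3, C3 = C * (1 + 2 * C0) * C0 := ⟨_, rfl⟩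
  have hC3p : 0 < C3 := by rw [hC3]; positivity
  obtain ⟨cc, hcc⟩ : ∃ cc, cc = min (m * C / (2 * D * C0)) (1 / (2 * C3)) := ⟨_, rfl⟩
  have hcc0 : 0 < cc := by
    rw [hcc]
    apply lt_min <;> positivity
  have hcc1 : cc ≤ m * C / (2 * D * C0) := hcc ▸ min_le_left _ _
  have hcc2 : cc ≤ 1 / (2 * C3) := hcc ▸ min_le_right _ _
  have hcc1' : cc * (2 * D * C0) ≤ m * C := by
    rwa [le_div_iff₀ (by positivity)] at hcc1
  have hcc2' : cc * (2 * C3) ≤ 1 := by
    rwa [le_div_iff₀ (by positivity)] at hcc2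
  refine ⟨cc, 1 + 2 / m + 2 + C / cc + 2 * C3, hcc0, ?_, ?_⟩
  · have : 0 ≤ 2 / m + 2 + C / cc + 2 * C3 := by positivity
    linarith
  intro z hz hzE
  have hz1 : z ≠ 1 := fun h => hzE (h ▸ Set.mem_insert _ _)
  have hza : ∀ k, z ≠ a k := fun k h => hzE (h ▸ Set.mem_insert_of_mem _ ⟨k, rfl⟩)
  have ht : 0 < ‖1 - z‖ := norm_pos_iff.2 (sub_ne_zero.2 (Ne.symm hz1))
  -- distance from the points
  obtain ⟨d, hd, hdist⟩ : ∃ d : ℝ, 0 < d ∧ ∀ k, d ≤ ‖z - a k‖ := by
    obtain ⟨ε, hε, hb⟩ := Metric.isOpen_iff.1 hC.closed.isOpen_compl z hzE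
    refine ⟨ε, hε, fun k => ?_⟩
    by_contra hc
    push Not at hc
    have : a k ∈ Metric.ball z ε := by
      rw [Metric.mem_ball, dist_comm, dist_eq_norm]; exact hc
    exact hb this (Set.mem_insert_of_mem _ ⟨k, rfl⟩)
  have hs0 : ∀ k, 1 - z * (starRingEnd ℂ) (a k) ≠ 0 := by
    intro k
    rw [← norm_pos_iff, s1_norm_s (hC.norm_a k)]
    exact hd.trans_le (hdist k)
  have hsr : ∀ k, 0 ≤ (1 - z * (starRingEnd ℂ) (a k)).re := fun k => s1_re_s (hC.norm_a k) hz
  have hKk := fun k => hK (ρ k) (hC.rho_pos k) (1 - z * (starRingEnd ℂ) (a k)) (hsr k) (hs0 k)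
  have hsig : ∀ k, 0 < ρ k ^ (1 - α) := fun k => Real.rpow_pos_of_pos (hC.rho_pos k) _
  -- summability
  have hN3 : ∀ k, ‖WW α a ρ k z‖ ≤ C * (ρ k ^ (1 - α) / ‖z - a k‖) := by
    intro k
    have := (hKk k).2.2.1
    rwa [s1_norm_s (hC.norm_a k)] at this
  have hsumN : Summable (fun k => ‖WW α a ρ k z‖) := by
    refine Summable.of_nonneg_of_le (fun k => norm_nonneg _) (fun k => ?_)
      (hC.sum_sig.mul_left (C / d))
    refine (hN3 k).trans ?_
    rw [div_mul_eq_mul_div, mul_div_assoc]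
    gcongr
    · exact (hsig k).le
    · exact hdist k
  have hsumW : Summable (fun k => WW α a ρ k z) := hsumN.of_norm
  obtain ⟨hsumT, hT⟩ := hC.sum_T z hz hz1
  -- real part
  have hVre : 0 < (VV α cc a ρ z).re := by
    have e1 : 0 < ((1 - z)⁻¹).re := by
      rw [Complex.inv_re]
      apply div_pos
      · rw [Complex.sub_re, Complex.one_re]
        linarith [s1_re_lt hz hz1]
      · exact Complex.normSq_pos.2 (sub_ne_zero.2 (Ne.symm hz1))
    have e2 : 0 ≤ (∑' k, WW α a ρ k z).re := by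
      rw [Complex.re_tsum hsumW]
      exact tsum_nonneg fun k => (hKk k).1
    have e3 : (VV α cc a ρ z).re = ((1 - z)⁻¹).re + cc * (∑' k, WW α a ρ k z).re := by
      rw [VV, Complex.add_re, Complex.re_ofReal_mul]
    rw [e3]
    have := mul_nonneg hcc0.le e2
    linarith
  have hSN : 0 ≤ ∑' k, ‖WW α a ρ k z‖ := tsum_nonneg fun k => norm_nonneg _
  have hVn : 0 ≤ ‖VV α cc a ρ z‖ := norm_nonneg _
  -- the two bounds
  have key : (1 / ‖1 - z‖ ≤ (2 / m + 2) * ‖VV α cc a ρ z‖) ∧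
      ∑' k, ‖WW α a ρ k z‖ ≤ (C / cc + 2 * C3) * ‖VV α cc a ρ z‖ := by
    rcases le_or_gt 0 z.im with him | him
    · -- upper half
      have e1 : m / ‖1 - z‖ ≤ (cst α * (1 - z)⁻¹).re := by
        have hx : 0 ≤ 1 - z.re := by linarith [s1_re_lt hz hz1]
        have hns : Complex.normSq (1 - z) = ‖1 - z‖ ^ 2 := Complex.normSq_eq_norm_sq _
        have e2 : (cst α * (1 - z)⁻¹).re =
            ((1 - z.re) * Real.sin (Real.pi * α / 2) + z.im * Real.cos (Real.pi * α / 2)) /
              ‖1 - z‖ ^ 2 := by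
          rw [Complex.mul_re, Complex.inv_re, Complex.inv_im, hns]
          simp only [cst, Complex.sub_re, Complex.one_re, Complex.sub_im, Complex.one_im]
          ring
        have e3 : ‖1 - z‖ ≤ (1 - z.re) + z.im := by
          have := Complex.norm_le_abs_re_add_abs_im (1 - z)
          simp only [Complex.sub_re, Complex.one_re, Complex.sub_im, Complex.one_im, zero_sub,
            abs_neg] at this
          rwa [abs_of_nonneg hx, abs_of_nonneg him] at this
        rw [e2, div_le_div_iff₀ ht (by positivity)]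
        have e4 : m * ‖1 - z‖ ≤ (1 - z.re) * Real.sin (Real.pi * α / 2) +
            z.im * Real.cos (Real.pi * α / 2) := by
          have a1 := mul_le_mul_of_nonneg_left e3 hm0.le
          have a2 := mul_le_mul_of_nonneg_left hms hx
          have a3 := mul_le_mul_of_nonneg_left hmc him
          nlinarith
        calc m * ‖1 - z‖ ^ 2 = (m * ‖1 - z‖) * ‖1 - z‖ := by ring
          _ ≤ _ := mul_le_mul_of_nonneg_right e4 ht.le
      have hsumcW : Summable (fun k => cst α * WW α a ρ k z) := hsumW.mul_left _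
      have e5 : ∑' k, ‖WW α a ρ k z‖ ≤ C * (cst α * ∑' k, WW α a ρ k z).re +
          D * ∑' k, ρ k ^ (1 - α) / (ρ k + ‖z - a k‖) := by
        have hre : (cst α * ∑' k, WW α a ρ k z).re = ∑' k, (cst α * WW α a ρ k z).re := by
          rw [← tsum_mul_left, Complex.re_tsum hsumcW]
        have hsre : Summable (fun k => (cst α * WW α a ρ k z).re) :=
          (Complex.hasSum_re hsumcW.hasSum).summable
        rw [hre, ← tsum_mul_left, ← tsum_mul_left,
          ← (hsre.mul_left C).tsum_add (hsumT.mul_left D)]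
        apply hsumN.tsum_le_tsum _ ((hsre.mul_left C).add (hsumT.mul_left D))
        intro k
        have := (hKk k).2.1
        rwa [s1_norm_s (hC.norm_a k)] at this
      have e6 : (cst α * VV α cc a ρ z).re ≤ ‖VV α cc a ρ z‖ := by
        have := Complex.re_le_norm (cst α * VV α cc a ρ z)
        rwa [norm_mul, s1_norm_cst, one_mul] at this
      have e7 : (cst α * VV α cc a ρ z).re = (cst α * (1 - z)⁻¹).re +
          cc * (cst α * ∑' k, WW α a ρ k z).re := by
        rw [VV, mul_add, Complex.add_re, mul_left_comm, Complex.re_ofReal_mul]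
      rw [e7] at e6
      have hCp : 0 < C := by linarith
      have hDp : 0 < D := by linarith
      have e8 : m / (2 * ‖1 - z‖) + cc / C * ∑' k, ‖WW α a ρ k z‖ ≤ ‖VV α cc a ρ z‖ := by
        have b1 : cc / C * ∑' k, ‖WW α a ρ k z‖ ≤ cc * (cst α * ∑' k, WW α a ρ k z).re +
            cc * D / C * (C0 / ‖1 - z‖) := by
          calc cc / C * ∑' k, ‖WW α a ρ k z‖
              ≤ cc / C * (C * (cst α * ∑' k, WW α a ρ k z).re + D * (C0 / ‖1 - z‖)) := by
                gcongr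
                exact e5.trans (by gcongr)
            _ = _ := by field_simp
        have b2 : cc * D / C * (C0 / ‖1 - z‖) ≤ m / (2 * ‖1 - z‖) := by
          rw [div_mul_div_comm, div_le_div_iff₀ (by positivity) (by positivity)]
          have := mul_le_mul_of_nonneg_right hcc1' ht.le
          nlinarith
        have b3 : m / ‖1 - z‖ = m / (2 * ‖1 - z‖) + m / (2 * ‖1 - z‖) := by field_simp; ring
        linarith
      have c1 : 0 ≤ cc / C * ∑' k, ‖WW α a ρ k z‖ := by positivity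
      have c2 : 0 ≤ m / (2 * ‖1 - z‖) := by positivity
      constructor
      · have c3 : m / (2 * ‖1 - z‖) ≤ ‖VV α cc a ρ z‖ := by linarith
        have c4 : 1 / ‖1 - z‖ = 2 / m * (m / (2 * ‖1 - z‖)) := by field_simp
        rw [c4]
        calc 2 / m * (m / (2 * ‖1 - z‖)) ≤ 2 / m * ‖VV α cc a ρ z‖ := by gcongr
          _ ≤ _ := by gcongr; linarith
      · have c3 : cc / C * ∑' k, ‖WW α a ρ k z‖ ≤ ‖VV α cc a ρ z‖ := by linarith
        have c4 : ∑' k, ‖WW α a ρ k z‖ = C / cc * (cc / C * ∑' k, ‖WW α a ρ k z‖) := by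
          field_simp
        rw [c4]
        calc C / cc * (cc / C * ∑' k, ‖WW α a ρ k z‖) ≤ C / cc * ‖VV α cc a ρ z‖ := by gcongr
          _ ≤ _ := by gcongr; linarith
    · -- lower half
      have f1 : ∀ k, ‖WW α a ρ k z‖ ≤ C * (1 + 2 * C0) *
          (ρ k ^ (1 - α) / (ρ k + ‖z - a k‖)) := by
        intro k
        have g1 : (a k).im ≤ ‖z - a k‖ := by
          have := Complex.abs_im_le_norm (z - a k)
          rw [Complex.sub_im] at this
          have h2 := neg_abs_le (z.im - (a k).im)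
          linarith
        have g2 := s1_im (hC.norm_a k) (hC.re_a k) (hC.im_a k)
        have g3 : ρ k ≤ ρ k ^ α := by
          have := Real.rpow_le_rpow_of_exponent_ge (hC.rho_pos k) (hC.rho_le k) h1.le
          rwa [Real.rpow_one] at this
        have g4 := hC.le_tau k
        have g5 : ρ k ≤ 2 * C0 * ‖z - a k‖ := by
          calc ρ k ≤ C0 * ‖1 - a k‖ := g3.trans g4
            _ ≤ C0 * (2 * ‖z - a k‖) := by gcongr; linarith
            _ = _ := by ring
        have hpos : 0 < ‖z - a k‖ := hd.trans_le (hdist k)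
        have hρ := hC.rho_pos k
        refine (hN3 k).trans ?_
        rw [mul_assoc C]
        gcongr C * ?_
        rw [mul_div_assoc', div_le_div_iff₀ hpos (by positivity)]
        have := mul_le_mul_of_nonneg_left
          (show ρ k + ‖z - a k‖ ≤ (1 + 2 * C0) * ‖z - a k‖ by linarith) (hsig k).le
        linarith
      have f2 : ∑' k, ‖WW α a ρ k z‖ ≤ C3 / ‖1 - z‖ := by
        calc ∑' k, ‖WW α a ρ k z‖ ≤
            ∑' k, C * (1 + 2 * C0) * (ρ k ^ (1 - α) / (ρ k + ‖z - a k‖)) :=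
              hsumN.tsum_le_tsum f1 (hsumT.mul_left _)
          _ = C * (1 + 2 * C0) * ∑' k, ρ k ^ (1 - α) / (ρ k + ‖z - a k‖) := tsum_mul_left
          _ ≤ C * (1 + 2 * C0) * (C0 / ‖1 - z‖) := by gcongr
          _ = _ := by rw [hC3]; ring
      have f3 : 1 / (2 * ‖1 - z‖) ≤ ‖VV α cc a ρ z‖ := by
        have g1 : ‖(1 - z)⁻¹‖ - ‖(cc : ℂ) * ∑' k, WW α a ρ k z‖ ≤ ‖VV α cc a ρ z‖ := by
          rw [VV]
          have := norm_sub_le ((1 - z)⁻¹ + (cc : ℂ) * ∑' k, WW α a ρ k z)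
            ((cc : ℂ) * ∑' k, WW α a ρ k z)
          rw [add_sub_cancel_right] at this
          linarith
        rw [norm_inv, norm_mul, Complex.norm_real, Real.norm_of_nonneg hcc0.le] at g1
        have g2 : ‖∑' k, WW α a ρ k z‖ ≤ C3 / ‖1 - z‖ := (norm_tsum_le_tsum_norm hsumN).trans f2
        have g3 : cc * ‖∑' k, WW α a ρ k z‖ ≤ 1 / (2 * ‖1 - z‖) := by
          calc cc * ‖∑' k, WW α a ρ k z‖ ≤ cc * (C3 / ‖1 - z‖) := by gcongr
            _ = (cc * (2 * C3)) * (1 / (2 * ‖1 - z‖)) := by field_simp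
            _ ≤ 1 * (1 / (2 * ‖1 - z‖)) := by gcongr
            _ = _ := one_mul _
        have g4 : ‖1 - z‖⁻¹ = 1 / (2 * ‖1 - z‖) + 1 / (2 * ‖1 - z‖) := by field_simp; ring
        linarith
      constructor
      · have g4 : 1 / ‖1 - z‖ = 2 * (1 / (2 * ‖1 - z‖)) := by field_simp
        rw [g4]
        calc 2 * (1 / (2 * ‖1 - z‖)) ≤ 2 * ‖VV α cc a ρ z‖ := by gcongr
          _ ≤ _ := by
            gcongr
            have : 0 < 2 / m := by positivity
            linarith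
      · have g5 : C3 / ‖1 - z‖ = 2 * C3 * (1 / (2 * ‖1 - z‖)) := by field_simp
        rw [g5] at f2
        refine f2.trans ?_
        calc 2 * C3 * (1 / (2 * ‖1 - z‖)) ≤ 2 * C3 * ‖VV α cc a ρ z‖ := by gcongr
          _ ≤ _ := by
            gcongr
            have : 0 < C / cc := by positivity
            linarith
  obtain ⟨k1, k2⟩ := key
  have q1 : 0 < 2 / m := by positivity
  have q2 : 0 < C / cc := by positivity
  refine ⟨hsumN, hVre, ?_, ?_⟩
  · rw [← one_div]
    exact k1.trans (mul_le_mul_of_nonneg_right (by linarith) hVn)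
  · exact k2.trans (mul_le_mul_of_nonneg_right (by linarith) hVn)

end PG
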